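import Pool.Agent.V5helper50.SP.Stm
import Pool.Agent.V5helper51.MT.FIN2

/-!
# Project SP, job UPC (helper36)
-/

set_option autoImplicit false

open Finset MeasureTheory

namespace Pool.Agent.V5helper36.SP

open Pool.Agent.V5helper50.SP
open Pool.Agent.V5helper51.MT (e g a G cube φ G_cont a_dvd a_last glue glue_one glue_two glue_last
  split_sum)

/-- the tuples in `[0, 4 P]` in given classes -/
def cls2 (k q P : ℕ) (ρ : Fin k → ℕ) : Finset (Fin k → ℕ) :=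
  Fintype.piFinset fun i : Fin k => (range (4 * P + 1)).filter fun x => x % q = ρ i % q

lemma class_card (q P c : ℕ) (hq : 1 ≤ q) (hqP : q ≤ 4 * P) :
    (((range (4 * P + 1)).filter fun x => x % q = c % q).card : ℝ) ≤ 8 * P / q := by
  have h1 : ((range (4 * P + 1)).filter fun x => x % q = c % q).card ≤ 4 * P / q + 1 := by
    rw [← card_range (4 * P / q + 1)]
    refine card_le_card_of_injOn (fun x => x / q) ?_ ?_
    · intro x hx
      have h2 := mem_filter.1 hx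
      have h3 := mem_range.1 h2.1
      rw [mem_coe, mem_range]
      have : x / q ≤ 4 * P / q := Nat.div_le_div_right (by omega)
      simp only
      omega
    · intro x hx y hy hxy
      have h2 := (mem_filter.1 hx).2
      have h3 := (mem_filter.1 hy).2
      simp only at hxy
      rw [← Nat.div_add_mod x q, ← Nat.div_add_mod y q, hxy, h2, h3]
  have hq0 : (0 : ℝ) < q := by exact_mod_cast (by omega : 0 < q)
  have h2 : ((4 * P / q : ℕ) : ℝ) ≤ 4 * P / q := by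
    have := @Nat.cast_div_le ℝ _ _ _ (4 * P) q
    push_cast at this
    exact this
  have h3 : (1 : ℝ) ≤ 4 * P / q := by
    rw [le_div_iff₀ hq0]
    have : ((q : ℕ) : ℝ) ≤ ((4 * P : ℕ) : ℝ) := by exact_mod_cast hqP
    push_cast at this
    linarith
  have h4 : (((range (4 * P + 1)).filter fun x => x % q = c % q).card : ℝ) ≤ ((4 * P / q : ℕ) : ℝ) + 1 := by
    exact_mod_cast h1
  have h5 : (8 : ℝ) * P / q = 4 * P / q + 4 * P / q := by ring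
  linarith

lemma cls2_card (k q P : ℕ) (hq : 1 ≤ q) (hqP : q ≤ 4 * P) (ρ : Fin k → ℕ) :
    ((cls2 k q P ρ).card : ℝ) ≤ (8 * P / q) ^ k := by
  unfold cls2
  rw [Fintype.card_piFinset]
  push_cast
  calc _ ≤ ∏ _i : Fin k, (8 * P / q : ℝ) := by
        refine prod_le_prod (fun _ _ => by positivity) fun i _ => class_card q P (ρ i) hq hqP
    _ = _ := by rw [prod_const, card_univ, Fintype.card_fin]

lemma glue_eq (k q r : ℕ) (x : Fin (2 * k + 1) → ℕ) (z : ℕ)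
    (h : q * z + r = x (Fin.last (2 * k))) :
    glue k q r (fun i : Fin k => x ⟨i, by omega⟩, (fun i : Fin k => x ⟨k + i, by omega⟩, z)) = x := by
  funext i
  unfold glue
  split_ifs with h1 h2
  · rfl
  · exact congrArg x (Fin.ext (by simp; omega))
  · have : i = Fin.last (2 * k) := Fin.ext (by simp; omega)
    rw [this]
    exact h

theorem count (hCMU : S_CMU) (k q : ℕ) (hq : 1 ≤ q) (α : Fin (k - 1) → ℝ)
    (ρ : Fin (2 * k + 1) → ℕ) (P X₀ X : ℕ) (hX : X₀ ≤ X) (hXP : 4 * P < X) (hqP : q ≤ 4 * P)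
    (hlow : ∀ x : ℕ, P ≤ (4 * k + 2) * x → X₀ ≤ x / q)
    (Γ δ E τ : ℝ) (hΓ : 1 ≤ Γ) (hδ : 0 ≤ δ)
    (hsup : ∀ γ : ℝ, |γ| ≤ Γ → ‖∑ z ∈ Ico X₀ X, e (γ * G k q (ρ (Fin.last (2 * k)) % q) α z) -
      ∫ u in (X₀ : ℝ)..X, e (γ * G k q (ρ (Fin.last (2 * k)) % q) α u)‖ ≤ δ)
    (hE : (cnt (a k q α) (fun _ : Fin k => range (4 * P + 1)) : ℝ) ≤ E)
    (hτ0 : 0 ≤ τ)
    (hτ : ∀ w : ℝ, ∫ u in (X₀ : ℝ)..X, φ2 (G k q (ρ (Fin.last (2 * k)) % q) α u - w) ≤ τ) (n : ℤ) :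
    ({x : Fin (2 * k + 1) → ℕ | (∀ i, x i % q = ρ i % q) ∧ (∀ i, x i ≤ 4 * P) ∧
      P ≤ (4 * k + 2) * x (Fin.last (2 * k)) ∧ ∑ i, a k q α (x i) = n}.ncard : ℝ) ≤
      (8 * P / q) ^ (2 * k) * τ + 100 * (δ + X / Γ) * E := by
  classical
  set r := ρ (Fin.last (2 * k)) % q with hr
  set ρ₁ : Fin k → ℕ := fun i => ρ ⟨i, by omega⟩ with hρ₁
  set ρ₂ : Fin k → ℕ := fun i => ρ ⟨k + i, by omega⟩ with hρ₂
  have hE0 : 0 ≤ E := le_trans (Nat.cast_nonneg _) hE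
  set A : Set (Fin (2 * k + 1) → ℕ) := {x : Fin (2 * k + 1) → ℕ | (∀ i, x i % q = ρ i % q) ∧
    (∀ i, x i ≤ 4 * P) ∧ P ≤ (4 * k + 2) * x (Fin.last (2 * k)) ∧ ∑ i, a k q α (x i) = n} with hA
  have hqZ : (q : ℤ) ≠ 0 := by exact_mod_cast (by omega : q ≠ 0)
  let s : (Fin k → ℕ) → (Fin k → ℕ) → ℤ := fun τ v => (∑ i, (a k q α (v i) - (τ i : ℤ) ^ k)) / q
  have hs : ∀ τ : Fin k → ℕ, ∀ v ∈ cls2 k q P τ,
      (q : ℤ) * s τ v = ∑ i, a k q α (v i) - ∑ i, (τ i : ℤ) ^ k := by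
    intro τ v hv
    unfold cls2 at hv
    rw [Fintype.mem_piFinset] at hv
    have h1 : (q : ℤ) ∣ ∑ i, (a k q α (v i) - (τ i : ℤ) ^ k) :=
      dvd_sum fun i _ => a_dvd k q α _ _ (mem_filter.1 (hv i)).2
    show (q : ℤ) * ((∑ i, (a k q α (v i) - (τ i : ℤ) ^ k)) / q) = _
    rw [Int.mul_ediv_cancel' h1, sum_sub_distrib]
  have hpairs : ∀ τ : Fin k → ℕ,
      (((cls2 k q P τ ×ˢ cls2 k q P τ).filter fun p => s τ p.1 = s τ p.2).card : ℝ) ≤ E := by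
    intro τ
    refine le_trans ?_ hE
    have : ((cls2 k q P τ ×ˢ cls2 k q P τ).filter (fun p => s τ p.1 = s τ p.2)).card ≤
        cnt (a k q α) (fun _ : Fin k => range (4 * P + 1)) := by
      unfold cnt
      refine card_le_card ?_
      intro p hp
      rw [mem_filter, mem_product] at hp
      rw [mem_filter, mem_product]
      have h5 : ∀ v ∈ cls2 k q P τ, v ∈ Fintype.piFinset fun _ : Fin k => range (4 * P + 1) := by
        intro v hv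
        unfold cls2 at hv
        rw [Fintype.mem_piFinset] at hv ⊢
        exact fun i => (mem_filter.1 (hv i)).1
      refine ⟨⟨h5 _ hp.1.1, h5 _ hp.1.2⟩, ?_⟩
      have h1 := hs τ p.1 hp.1.1
      have h2 := hs τ p.2 hp.1.2
      rw [hp.2] at h1
      linarith
    exact_mod_cast this
  have hcl : ∀ x ∈ A, (fun i : Fin k => x ⟨i, by omega⟩) ∈ cls2 k q P ρ₁ ∧
      (fun i : Fin k => x ⟨k + i, by omega⟩) ∈ cls2 k q P ρ₂ ∧
      x (Fin.last (2 * k)) / q ∈ Ico X₀ X ∧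
      q * (x (Fin.last (2 * k)) / q) + r = x (Fin.last (2 * k)) ∧
      n - ∑ i, (ρ₁ i : ℤ) ^ k - ∑ i, (ρ₂ i : ℤ) ^ k - (r : ℤ) ^ k =
        q * (s ρ₁ (fun i : Fin k => x ⟨i, by omega⟩) + s ρ₂ (fun i : Fin k => x ⟨k + i, by omega⟩) +
          ⌊G k q r α ((x (Fin.last (2 * k)) / q : ℕ) : ℝ)⌋) := by
    rintro x ⟨h1, h2, h3, h4⟩
    have c1 : (fun i : Fin k => x ⟨i, by omega⟩) ∈ cls2 k q P ρ₁ := by
      unfold cls2
      rw [Fintype.mem_piFinset]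
      intro i
      rw [mem_filter, mem_range]
      exact ⟨Nat.lt_succ_of_le (h2 _), h1 _⟩
    have c2 : (fun i : Fin k => x ⟨k + i, by omega⟩) ∈ cls2 k q P ρ₂ := by
      unfold cls2
      rw [Fintype.mem_piFinset]
      intro i
      rw [mem_filter, mem_range]
      exact ⟨Nat.lt_succ_of_le (h2 _), h1 _⟩
    have c4 : q * (x (Fin.last (2 * k)) / q) + r = x (Fin.last (2 * k)) := by
      rw [hr, ← h1 (Fin.last (2 * k))]
      exact Nat.div_add_mod _ _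
    refine ⟨c1, c2, ?_, c4, ?_⟩
    · rw [mem_Ico]
      refine ⟨hlow _ h3, ?_⟩
      have h5 := h2 (Fin.last (2 * k))
      have h6 : x (Fin.last (2 * k)) / q ≤ x (Fin.last (2 * k)) := Nat.div_le_self _ _
      omega
    · have e1 := hs ρ₁ _ c1
      have e2 := hs ρ₂ _ c2
      have e3 := a_last k q hq α (x (Fin.last (2 * k)) / q) r
      rw [c4] at e3
      rw [split_sum k fun i => a k q α (x i)] at h4
      rw [mul_add, mul_add, e1, e2, ← h4, e3]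
      ring
  have hfin : (0 : ℝ) ≤ (8 * P / q) ^ (2 * k) * τ + 100 * (δ + X / Γ) * E := by
    have : (0 : ℝ) < Γ := by linarith
    positivity
  rcases A.eq_empty_or_nonempty with hem | ⟨x0, hx0⟩
  · rw [hem, Set.ncard_empty]
    simpa using hfin
  obtain ⟨-, -, -, -, hN⟩ := hcl x0 hx0
  set N : ℤ := s ρ₁ (fun i : Fin k => x0 ⟨i, by omega⟩) + s ρ₂ (fun i : Fin k => x0 ⟨k + i, by omega⟩) +
          ⌊G k q r α ((x0 (Fin.last (2 * k)) / q : ℕ) : ℝ)⌋ with hNdef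
  have hcm := hCMU (Fin k → ℕ) (cls2 k q P ρ₁) (cls2 k q P ρ₂) (s ρ₁) (s ρ₂) X₀ X (G k q r α) N
    Γ δ E hX (G_cont k q r α) hΓ hδ hsup (hpairs ρ₁) (hpairs ρ₂)
  set U := ((cls2 k q P ρ₁ ×ˢ (cls2 k q P ρ₂ ×ˢ Ico X₀ X)).filter
    fun p => s ρ₁ p.1 + s ρ₂ p.2.1 + ⌊G k q r α p.2.2⌋ = N) with hU
  have hsub : A ⊆ ((U.image (glue k q r) : Finset (Fin (2 * k + 1) → ℕ)) : Set (Fin (2 * k + 1) → ℕ)) := by
    intro x hx
    obtain ⟨c1, c2, c3, c4, c5⟩ := hcl x hx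
    rw [mem_coe, mem_image]
    refine ⟨(fun i : Fin k => x ⟨i, by omega⟩, (fun i : Fin k => x ⟨k + i, by omega⟩,
      x (Fin.last (2 * k)) / q)), ?_, glue_eq k q r x _ c4⟩
    rw [hU, mem_filter, mem_product, mem_product]
    refine ⟨⟨c1, c2, c3⟩, ?_⟩
    rw [hN] at c5
    exact (mul_left_cancel₀ hqZ c5).symm
  have hcard : (A.ncard : ℝ) ≤ U.card := by
    have h1 := Set.ncard_le_ncard hsub (Finset.finite_toSet _)
    rw [Set.ncard_coe_finset] at h1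
    exact_mod_cast h1.trans card_image_le
  have hmain : (∑ v ∈ cls2 k q P ρ₁, ∑ w ∈ cls2 k q P ρ₂,
      ∫ u in (X₀ : ℝ)..X, φ2 (G k q r α u + s ρ₁ v + s ρ₂ w - N)) ≤ (8 * P / q) ^ (2 * k) * τ := by
    calc (∑ v ∈ cls2 k q P ρ₁, ∑ w ∈ cls2 k q P ρ₂,
          ∫ u in (X₀ : ℝ)..X, φ2 (G k q r α u + s ρ₁ v + s ρ₂ w - N))
        ≤ ∑ v ∈ cls2 k q P ρ₁, ∑ w ∈ cls2 k q P ρ₂, τ := by
          refine sum_le_sum fun v _ => sum_le_sum fun w _ => ?_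
          refine le_trans (le_of_eq ?_) (hτ ((N : ℝ) - s ρ₁ v - s ρ₂ w))
          congr 1
          funext u
          congr 1
          ring
      _ = ((cls2 k q P ρ₁).card : ℝ) * (((cls2 k q P ρ₂).card : ℝ) * τ) := by
          rw [sum_const, sum_const, nsmul_eq_mul, nsmul_eq_mul]
      _ ≤ (8 * P / q) ^ k * ((8 * P / q) ^ k * τ) := by
          have h1 := cls2_card k q P hq hqP ρ₁
          have h2 := cls2_card k q P hq hqP ρ₂
          gcongr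
      _ = _ := by
          rw [two_mul, pow_add]; ring
  linarith

/-- the sum and the integral over `[X₀, X)` -/
lemma ico_bound (k q r : ℕ) (α : Fin (k - 1) → ℝ) (X₀ X : ℕ) (hX : X₀ ≤ X) (γ δ₀ δ₁ : ℝ)
    (h0 : ‖∑ z ∈ range X₀, e (γ * G k q r α z) - ∫ u in (0 : ℝ)..X₀, e (γ * G k q r α u)‖ ≤ δ₀)
    (h1 : ‖∑ z ∈ range X, e (γ * G k q r α z) - ∫ u in (0 : ℝ)..X, e (γ * G k q r α u)‖ ≤ δ₁) :
    ‖∑ z ∈ Ico X₀ X, e (γ * G k q r α z) - ∫ u in (X₀ : ℝ)..X, e (γ * G k q r α u)‖ ≤ δ₀ + δ₁ := by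
  have hc : Continuous fun u : ℝ => e (γ * G k q r α u) := by
    have := G_cont k q r α
    unfold e
    fun_prop
  have e1 : ∑ z ∈ Ico X₀ X, e (γ * G k q r α z) =
      ∑ z ∈ range X, e (γ * G k q r α z) - ∑ z ∈ range X₀, e (γ * G k q r α z) :=
    Finset.sum_Ico_eq_sub _ hX
  have e2 : ∫ u in (X₀ : ℝ)..X, e (γ * G k q r α u) =
      (∫ u in (0 : ℝ)..X, e (γ * G k q r α u)) - ∫ u in (0 : ℝ)..X₀, e (γ * G k q r α u) :=
    (intervalIntegral.integral_interval_sub_left (hc.intervalIntegrable _ _)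
      (hc.intervalIntegrable _ _)).symm
  rw [e1, e2]
  have e3 : ∀ a b c d : ℂ, a - b - (c - d) = (a - c) - (b - d) := by intro a b c d; ring
  rw [e3]
  refine (norm_sub_le _ _).trans ?_
  linarith

theorem t_UPC (hCMU : S_CMU) (hMTU : S_MTU) : S_UPC := by
  intro k hk
  refine ⟨2 * 8 ^ (2 * k) * (8 * (k : ℝ) + 6) ^ (k - 1) + 1, by positivity, ?_⟩
  rintro q hq α σ hσ0 hσ1 ⟨C₀, hC₀, hpair⟩ hsup ρ
  obtain ⟨X₁, hX₁1, hX₁⟩ := hMTU k q (ρ (Fin.last (2 * k)) % q) hk hq α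
  obtain ⟨m1, hm1⟩ := hsup (ρ (Fin.last (2 * k)) % q) 1 le_rfl
  obtain ⟨m5, hm5⟩ := hsup (ρ (Fin.last (2 * k)) % q) 5 (by norm_num)
  obtain ⟨j, hj1, hj2⟩ : ∃ j : ℕ, q * (4 * k + 3) ≤ 2 ^ j ∧ 2 ^ j ≤ 2 * (q * (4 * k + 3)) := by
    have hx : 1 < q * (4 * k + 3) := by nlinarith
    refine ⟨Nat.clog 2 (q * (4 * k + 3)), Nat.le_pow_clog (by norm_num) _, ?_⟩
    have h1 := Nat.pow_pred_clog_lt_self (b := 2) (by norm_num) hx
    have h2 : 0 < Nat.clog 2 (q * (4 * k + 3)) := Nat.clog_pos (by norm_num) hx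
    have h3 : 2 ^ Nat.clog 2 (q * (4 * k + 3)) = 2 * 2 ^ (Nat.clog 2 (q * (4 * k + 3))).pred := by
      rw [← pow_succ']
      congr 1
      simp only [Nat.pred_eq_sub_one]
      omega
    omega
  have hq0 : (0 : ℝ) < q := by exact_mod_cast (by omega : 0 < q)
  have hq1 : (1 : ℝ) ≤ q := by exact_mod_cast hq
  set J : ℝ := (2 : ℝ) ^ j with hJ
  have hJ1 : (1 : ℝ) ≤ J := one_le_pow₀ (by norm_num)
  set D : ℝ := 100 * (10 + 5 * J) * (C₀ * 5 ^ (k + 1)) with hD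
  have hD0 : 0 < D := by positivity
  -- the last condition
  obtain ⟨m2, hm2⟩ : ∃ m2 : ℕ, ∀ m : ℕ, m2 ≤ m → D * (q : ℝ) ^ (2 * k) ≤ ((2 : ℝ) ^ m) ^ (σ / 2) := by
    have h1 : Filter.Tendsto (fun m : ℕ => ((2 : ℝ) ^ m) ^ (σ / 2)) Filter.atTop Filter.atTop :=
      (tendsto_rpow_atTop (by linarith : (0 : ℝ) < σ / 2)).comp
        (tendsto_pow_atTop_atTop_of_one_lt (by norm_num : (1 : ℝ) < 2))
    obtain ⟨m2, hm2⟩ := Filter.eventually_atTop.1 (h1.eventually_ge_atTop (D * (q : ℝ) ^ (2 * k)))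
    exact ⟨m2, hm2⟩
  refine ⟨m1 + j + m5 + X₁ + m2, fun m hm n => ?_⟩
  set P : ℕ := 2 ^ m with hP
  set p : ℝ := (2 : ℝ) ^ m with hp
  have hPp : (P : ℝ) = p := by rw [hP, hp]; push_cast; rfl
  have hp1 : (1 : ℝ) ≤ p := one_le_pow₀ (by norm_num)
  have hp0 : (0 : ℝ) < p := by linarith
  set X₀ : ℕ := 1 * 2 ^ (m - j) with hX₀
  set X : ℕ := 5 * 2 ^ m with hX
  have hX₀p : (X₀ : ℝ) = p / J := by
    rw [hX₀, hp, hJ, one_mul]
    push_cast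
    rw [pow_sub₀ _ (by norm_num) (by omega)]
    rfl
  have hXp : (X : ℝ) = 5 * p := by rw [hX, hp]; push_cast; rfl
  have hpow : 2 ^ j * 2 ^ (m - j) = 2 ^ m := by
    rw [← pow_add]; congr 1; omega
  have hXX : X₀ ≤ X := by
    rw [hX₀, hX, one_mul]
    have : 2 ^ (m - j) ≤ 2 ^ m := Nat.pow_le_pow_right (by norm_num) (by omega)
    omega
  have hqP : q ≤ 4 * P := by
    have h1 : 2 ^ j ≤ 2 ^ m := Nat.pow_le_pow_right (by norm_num) (by omega)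
    have h2 : q ≤ q * (4 * k + 3) := Nat.le_mul_of_pos_right _ (by omega)
    omega
  have hXP : 4 * P < X := by
    have : 0 < 2 ^ m := by positivity
    omega
  have hlow : ∀ x : ℕ, P ≤ (4 * k + 2) * x → X₀ ≤ x / q := by
    intro x hx
    rw [Nat.le_div_iff_mul_le (by omega)]
    by_contra hc
    push Not at hc
    have h1 : (4 * k + 3) * x < (4 * k + 3) * (X₀ * q) := Nat.mul_lt_mul_of_pos_left hc (by omega)
    have h2 : (4 * k + 3) * (X₀ * q) ≤ P := by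
      calc (4 * k + 3) * (X₀ * q) = (q * (4 * k + 3)) * 2 ^ (m - j) := by rw [hX₀]; ring
        _ ≤ 2 ^ j * 2 ^ (m - j) := Nat.mul_le_mul_right _ hj1
        _ = P := hpow
    have h3 : (4 * k + 3) * x = (4 * k + 2) * x + x := by ring
    omega
  have hX₀1 : (1 : ℝ) ≤ X₀ := by
    have : 1 ≤ X₀ := by
      rw [hX₀, one_mul]; exact Nat.one_le_two_pow
    exact_mod_cast this
  have hX1 : (1 : ℝ) ≤ X := hX₀1.trans (by exact_mod_cast hXX)
  have hX₀0 : (0 : ℝ) < X₀ := by linarith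
  have hX0 : (0 : ℝ) < X := by linarith
  have hXX' : (X₀ : ℝ) ≤ X := by exact_mod_cast hXX
  have hΓ : (1 : ℝ) ≤ (X₀ : ℝ) ^ σ := Real.one_le_rpow hX₀1 hσ0.le
  have hδ : (0 : ℝ) ≤ (X₀ : ℝ) ^ (1 - σ) + (X : ℝ) ^ (1 - σ) := by positivity
  have hτ0 : (0 : ℝ) ≤ 2 / ((q : ℝ) * X₀) ^ (k - 1) := by positivity
  have hX₁X₀ : X₁ ≤ X₀ := by
    have h1 : X₁ < 2 ^ X₁ := Nat.lt_two_pow_self
    have h2 : 2 ^ X₁ ≤ 2 ^ (m - j) := Nat.pow_le_pow_right (by norm_num) (by omega)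
    omega
  have hcount := count hCMU k q hq α ρ P X₀ X hXX hXP hqP hlow ((X₀ : ℝ) ^ σ)
    ((X₀ : ℝ) ^ (1 - σ) + (X : ℝ) ^ (1 - σ)) (C₀ * ((4 * P + 1 : ℕ) : ℝ) ^ ((k : ℝ) + σ / 2))
    (2 / ((q : ℝ) * X₀) ^ (k - 1)) hΓ hδ
    (fun γ hγ => ico_bound k q _ α X₀ X hXX γ _ _ (hm1 (m - j) (by omega) X₀ hX₀ γ hγ)
      (hm5 m (by omega) X hX γ (hγ.trans (Real.rpow_le_rpow hX₀0.le hXX' hσ0.le))))
    (hpair (4 * P + 1) (by omega)) hτ0 (fun w => hX₁ X₀ X hX₁X₀ hXX w) n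
  refine hcount.trans ?_
  -- the main term
  have hqX₀ : p / (8 * k + 6) ≤ (q : ℝ) * X₀ := by
    rw [hX₀p, div_le_iff₀ (by positivity)]
    have h1 : J ≤ 2 * (q * (4 * k + 3)) := by
      have : ((2 ^ j : ℕ) : ℝ) ≤ ((2 * (q * (4 * k + 3)) : ℕ) : ℝ) := by exact_mod_cast hj2
      push_cast at this
      exact this
    have h2 : (q : ℝ) * (p / J) * (8 * k + 6) = p * ((2 * (q * (4 * k + 3))) / J) := by
      field_simp
      ring
    rw [h2]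
    have h3 : (1 : ℝ) ≤ (2 * (q * (4 * k + 3))) / J := (one_le_div (by linarith)).2 h1
    nlinarith
  have hmain : (8 * (P : ℝ) / q) ^ (2 * k) * (2 / ((q : ℝ) * X₀) ^ (k - 1)) ≤
      2 * 8 ^ (2 * k) * (8 * (k : ℝ) + 6) ^ (k - 1) / (q : ℝ) ^ (2 * k) * p ^ (k + 1) := by
    have h1 : (2 : ℝ) / ((q : ℝ) * X₀) ^ (k - 1) ≤ 2 / (p / (8 * k + 6)) ^ (k - 1) := by
      apply div_le_div_of_nonneg_left (by norm_num) (by positivity)
      exact pow_le_pow_left₀ (by positivity) hqX₀ _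
    calc (8 * (P : ℝ) / q) ^ (2 * k) * (2 / ((q : ℝ) * X₀) ^ (k - 1))
        ≤ (8 * (P : ℝ) / q) ^ (2 * k) * (2 / (p / (8 * k + 6)) ^ (k - 1)) :=
          mul_le_mul_of_nonneg_left h1 (by positivity)
      _ = _ := by
          rw [hPp, div_pow, mul_pow, div_pow]
          have e1 : p ^ (2 * k) = p ^ (k + 1) * p ^ (k - 1) := by
            rw [← pow_add]; congr 1; omega
          rw [e1]
          field_simp
  -- the error
  have herr : 100 * ((X₀ : ℝ) ^ (1 - σ) + (X : ℝ) ^ (1 - σ) + X / (X₀ : ℝ) ^ σ) *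
      (C₀ * ((4 * P + 1 : ℕ) : ℝ) ^ ((k : ℝ) + σ / 2)) ≤ 1 / (q : ℝ) ^ (2 * k) * p ^ (k + 1) := by
    have h1 : (X : ℝ) ^ (1 - σ) ≤ 5 * p ^ (1 - σ) := by
      rw [hXp, Real.mul_rpow (by norm_num) hp0.le]
      apply mul_le_mul_of_nonneg_right _ (by positivity)
      calc (5 : ℝ) ^ (1 - σ) ≤ 5 ^ (1 : ℝ) := Real.rpow_le_rpow_of_exponent_le (by norm_num) (by linarith)
        _ = 5 := Real.rpow_one _
    have h2 : (X₀ : ℝ) ^ (1 - σ) ≤ 5 * p ^ (1 - σ) :=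
      (Real.rpow_le_rpow hX₀0.le hXX' (by linarith)).trans h1
    have h3 : X / (X₀ : ℝ) ^ σ ≤ 5 * J * p ^ (1 - σ) := by
      rw [hX₀p, hXp, Real.div_rpow hp0.le (by linarith), Real.rpow_sub hp0, Real.rpow_one]
      have h4 : J ^ σ ≤ J := by
        calc J ^ σ ≤ J ^ (1 : ℝ) := Real.rpow_le_rpow_of_exponent_le hJ1 hσ1.le
          _ = J := Real.rpow_one _
      have h5 : (0 : ℝ) < p ^ σ := Real.rpow_pos_of_pos hp0 _
      have h6 : (0 : ℝ) < J ^ σ := Real.rpow_pos_of_pos (by linarith) _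
      have h7 : 5 * p / (p ^ σ / J ^ σ) = 5 * J ^ σ * (p / p ^ σ) := by
        field_simp
      rw [h7]
      gcongr
    have h4 : ((4 * P + 1 : ℕ) : ℝ) ^ ((k : ℝ) + σ / 2) ≤ 5 ^ (k + 1) * (p ^ k * p ^ (σ / 2)) := by
      have h5 : ((4 * P + 1 : ℕ) : ℝ) ≤ 5 * p := by
        push_cast; rw [hPp]; linarith
      calc ((4 * P + 1 : ℕ) : ℝ) ^ ((k : ℝ) + σ / 2) ≤ (5 * p) ^ ((k : ℝ) + σ / 2) :=
            Real.rpow_le_rpow (by positivity) h5 (by positivity)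
        _ = 5 ^ ((k : ℝ) + σ / 2) * p ^ ((k : ℝ) + σ / 2) := Real.mul_rpow (by norm_num) hp0.le
        _ ≤ 5 ^ ((k : ℝ) + 1) * p ^ ((k : ℝ) + σ / 2) := by
            apply mul_le_mul_of_nonneg_right _ (by positivity)
            exact Real.rpow_le_rpow_of_exponent_le (by norm_num) (by linarith)
        _ = _ := by
            rw [Real.rpow_add hp0, Real.rpow_natCast]
            congr 1
            exact_mod_cast Real.rpow_natCast (5 : ℝ) (k + 1)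
    have h6 : (X₀ : ℝ) ^ (1 - σ) + (X : ℝ) ^ (1 - σ) + X / (X₀ : ℝ) ^ σ ≤
        (10 + 5 * J) * p ^ (1 - σ) := by
      linarith
    have h7 : (0 : ℝ) ≤ (X₀ : ℝ) ^ (1 - σ) + (X : ℝ) ^ (1 - σ) + X / (X₀ : ℝ) ^ σ := by positivity
    calc 100 * ((X₀ : ℝ) ^ (1 - σ) + (X : ℝ) ^ (1 - σ) + X / (X₀ : ℝ) ^ σ) *
          (C₀ * ((4 * P + 1 : ℕ) : ℝ) ^ ((k : ℝ) + σ / 2))
        ≤ 100 * ((10 + 5 * J) * p ^ (1 - σ)) * (C₀ * (5 ^ (k + 1) * (p ^ k * p ^ (σ / 2)))) := by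
          gcongr
      _ = D * (p ^ k * (p ^ (1 - σ) * p ^ (σ / 2))) := by rw [hD]; ring
      _ = D * (p ^ k * (p * (p ^ (σ / 2))⁻¹)) := by
          congr 2
          rw [← Real.rpow_add hp0, ← Real.rpow_neg hp0.le, show 1 - σ + σ / 2 = 1 + -(σ / 2) by ring,
            Real.rpow_add hp0, Real.rpow_one]
      _ ≤ _ := by
          have h8 := hm2 m (by omega)
          have h9 : (0 : ℝ) < p ^ (σ / 2) := Real.rpow_pos_of_pos hp0 _
          have h10 : (0 : ℝ) < (q : ℝ) ^ (2 * k) := by positivity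
          have h11 : D * (p ^ (σ / 2))⁻¹ ≤ 1 / (q : ℝ) ^ (2 * k) := by
            rw [← div_eq_mul_inv, div_le_div_iff₀ h9 h10, one_mul]
            exact h8
          calc D * (p ^ k * (p * (p ^ (σ / 2))⁻¹)) = (D * (p ^ (σ / 2))⁻¹) * p ^ (k + 1) := by
                rw [pow_succ]; ring
            _ ≤ _ := mul_le_mul_of_nonneg_right h11 (by positivity)
  have hfinal : (2 * 8 ^ (2 * k) * (8 * (k : ℝ) + 6) ^ (k - 1) + 1) / (q : ℝ) ^ (2 * k) * p ^ (k + 1) =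
      2 * 8 ^ (2 * k) * (8 * (k : ℝ) + 6) ^ (k - 1) / (q : ℝ) ^ (2 * k) * p ^ (k + 1) +
        1 / (q : ℝ) ^ (2 * k) * p ^ (k + 1) := by ring
  rw [hfinal]
  exact add_le_add hmain herr

end Pool.Agent.V5helper36.SP
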